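import Pool.Agent.Run7.h900.BR.Defs

/-!
# Piece LIFT of the project on `MP_f81df4_al` (helper900)

`(x, y, f) ↦ (φ x + β f, act M y + τ f, α f)`.
-/

set_option autoImplicit false

namespace Pool.Agent.Run7.h56.BR

open Pool.Agent.Run7.h900.BR

section

variable {n : ℕ} {C : Type} [AddCommGroup C]

/-- the action as a homomorphism -/
def actH (A : Matrix (Fin n) (Fin n) ℤ) : (Fin n → C) →+ (Fin n → C) :=
  AddMonoidHom.mk' (act A) (act_add A)

lemma actH_apply (A : Matrix (Fin n) (Fin n) ℤ) (x : Fin n → C) : actH A x = act A x := rfl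

/-- the first coordinates -/
def fstV {P S : Type} (z : Fin n → P × S) : Fin n → P := fun i => (z i).1

/-- the second coordinates -/
def sndV {P S : Type} (z : Fin n → P × S) : Fin n → S := fun i => (z i).2

/-- both coordinates -/
def pairV {P S : Type} (x : Fin n → P) (y : Fin n → S) : Fin n → P × S := fun i => (x i, y i)

lemma fstV_pairV {P S : Type} (x : Fin n → P) (y : Fin n → S) : fstV (pairV x y) = x := rfl

lemma sndV_pairV {P S : Type} (x : Fin n → P) (y : Fin n → S) : sndV (pairV x y) = y := rfl

lemma ext_pairV {P S : Type} {z w : Fin n → P × S} (h1 : fstV z = fstV w) (h2 : sndV z = sndV w) :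
    z = w := by
  funext i
  exact Prod.ext (congrFun h1 i) (congrFun h2 i)

lemma fstV_mul {P S : Type} [AddCommGroup P] [AddCommGroup S] (A : Matrix (Fin n) (Fin n) ℤ)
    (z w : Fin n → P × S) (p : P) (s : S) (v : Fin n → ℤ) :
    fstV (z + act A w + vec (p, s) v) = fstV z + act A (fstV w) + vec p v := by
  funext i
  simp [fstV, act, vec, Prod.fst_sum]

lemma sndV_mul {P S : Type} [AddCommGroup P] [AddCommGroup S] (A : Matrix (Fin n) (Fin n) ℤ)
    (z w : Fin n → P × S) (p : P) (s : S) (v : Fin n → ℤ) :
    sndV (z + act A w + vec (p, s) v) = sndV z + act A (sndV w) + vec s v := by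
  funext i
  simp [sndV, act, vec, Prod.snd_sum]

end

/-- a two-cocycle with values in a uniquely divisible module is a coboundary -/
lemma exists_tau {F V : Type} [Group F] [Finite F] [AddCommGroup V]
    (hV : ∀ k : ℕ, k ≠ 0 → Function.Bijective fun y : V => k • y)
    (R : F → V →+ V) (δ : F → F → V)
    (h : ∀ f g h, δ f g + δ (f * g) h = R f (δ g h) + δ f (g * h)) :
    ∃ τ : F → V, ∀ f g, δ f g = τ f + R f (τ g) - τ (f * g) := by
  classical
  have := Fintype.ofFinite F
  have hN : Fintype.card F ≠ 0 := Fintype.card_ne_zero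
  choose τ hτ using fun f => (hV _ hN).2 (∑ h, δ f h)
  have hτ' : ∀ f, Fintype.card F • τ f = ∑ h, δ f h := hτ
  refine ⟨τ, fun f g => (hV _ hN).1 ?_⟩
  change Fintype.card F • δ f g = Fintype.card F • (τ f + R f (τ g) - τ (f * g))
  rw [smul_sub, smul_add, ← map_nsmul, hτ', hτ', hτ']
  have h1 := Finset.sum_congr rfl fun (k : F) (_ : k ∈ Finset.univ) => h f g k
  rw [Finset.sum_add_distrib, Finset.sum_add_distrib, Finset.sum_const, Finset.card_univ,
    ← map_sum] at h1
  have h2 : ∑ k, δ f (g * k) = ∑ k, δ f k :=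
    Fintype.sum_equiv (Equiv.mulLeft g) _ _ (fun _ => rfl)
  rw [h2] at h1
  rw [eq_sub_iff_add_eq, h1, add_comm]

lemma bij_vec {n : ℕ} {S : Type} [AddCommGroup S]
    (hS : ∀ k : ℕ, k ≠ 0 → Function.Bijective fun y : S => k • y) (k : ℕ) (hk : k ≠ 0) :
    Function.Bijective fun y : Fin n → S => k • y := by
  refine ⟨fun x y hxy => ?_, fun y => ?_⟩
  · funext i
    exact (hS k hk).1 (congrFun hxy i)
  · choose x hx using fun i => (hS k hk).2 (y i)
    exact ⟨x, funext hx⟩

lemma bij_int {V : Type} [AddCommGroup V]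
    (hV : ∀ k : ℕ, k ≠ 0 → Function.Bijective fun y : V => k • y) (k : ℤ) (hk : k ≠ 0) :
    Function.Bijective fun y : V => k • y := by
  obtain ⟨m, rfl | rfl⟩ := Int.eq_nat_or_neg k
  · have hm : m ≠ 0 := by
      rintro rfl
      exact hk rfl
    simpa only [natCast_zsmul] using hV m hm
  · have hm : m ≠ 0 := by
      rintro rfl
      exact hk (by simp)
    have h2 : (fun y : V => (-(m : ℤ)) • y) = (fun y => -y) ∘ fun y : V => m • y := by
      funext y
      simp [neg_smul]
    rw [h2]
    exact (Equiv.neg V).bijective.comp (hV m hm)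

lemma act_smul_one {n : ℕ} {C : Type} [AddCommGroup C] (d : ℤ) (y : Fin n → C) :
    act (d • (1 : Matrix (Fin n) (Fin n) ℤ)) y = d • y := by
  funext i
  simp [act, Matrix.one_apply, ite_smul]

lemma act_bij {n : ℕ} {S : Type} [AddCommGroup S]
    (hS : ∀ k : ℕ, k ≠ 0 → Function.Bijective fun y : S => k • y)
    (M : Matrix (Fin n) (Fin n) ℤ) (hM : M.det ≠ 0) :
    Function.Bijective (act M : (Fin n → S) → Fin n → S) := by
  have h0 := bij_int (bij_vec (n := n) hS) M.det hM
  have h1 : ∀ y : Fin n → S, act M (act M.adjugate y) = M.det • y := fun y => by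
    rw [← act_mul, Matrix.mul_adjugate, act_smul_one]
  have h2 : ∀ y : Fin n → S, act M.adjugate (act M y) = M.det • y := fun y => by
    rw [← act_mul, Matrix.adjugate_mul, act_smul_one]
  refine ⟨fun x y hxy => h0.1 ?_, fun y => ?_⟩
  · change M.det • x = M.det • y
    rw [← h2, ← h2, hxy]
  · obtain ⟨x, hx⟩ := h0.2 y
    exact ⟨act M.adjugate x, by rw [h1]; exact hx⟩

/-- **PIECE LIFT** -/
theorem t_LIFT : S_LIFT := by
  intro n F F' _ _ _ _ _ _ _ _ D D' P S _ _ _ _ _ _ _ _ _ _ p s hS Θ α φ β hΘ hφ M hM hMρ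
  have hSn := bij_vec (n := n) hS
  -- the cocycle
  obtain ⟨τ, hτ⟩ := exists_tau hSn (fun f => actH (C := S) (D'.ρ (α f)))
    (fun f g => act M (vec s (D.γ f g)) - vec s (D'.γ (α f) (α g))) (by
      intro f g h
      have e1 := congrArg (fun v => act M (vec s v)) (D.coc f g h)
      have e2 := congrArg (vec s) (D'.coc (α f) (α g) (α h))
      simp only [vec_add, act_add, ← act_vec] at e1 e2
      rw [← act_mul M (D.ρ f), hMρ f, act_mul] at e1
      rw [actH_apply, sub_eq_add_neg (act M (vec s (D.γ g h))), act_add, act_neg, map_mul, map_mul]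
      calc _ = (act M (vec s (D.γ f g)) + act M (vec s (D.γ (f * g) h))) -
            (vec s (D'.γ (α f) (α g)) + vec s (D'.γ (α f * α g) (α h))) := by abel
        _ = _ := by rw [e1, e2]; abel)
  simp only [actH_apply] at hτ
  -- the map
  let Ψ : E D (P × S) (p, s) →* E D' (P × S) (p, s) := MonoidHom.mk'
    (fun z => mk D' (P × S) (p, s)
      (pairV (φ (fstV z.1) + β z.2) (act M (sndV z.1) + τ z.2)) (α z.2)) (by
      rintro ⟨z, f⟩ ⟨w, g⟩
      refine Prod.ext ?_ (map_mul α f g)
      apply ext_pairV
      · have h1 := hΘ (fstV z + act (D.ρ f) (fstV w) + vec p (D.γ f g)) (f * g)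
        rw [← mk_mul, map_mul, hΘ, hΘ, mk_mul] at h1
        have h2 := congrArg Prod.fst h1
        change (φ (fstV z) + β f) + act (D'.ρ (α f)) (φ (fstV w) + β g) +
          vec p (D'.γ (α f) (α g)) =
          φ (fstV z + act (D.ρ f) (fstV w) + vec p (D.γ f g)) + β (f * g) at h2
        change φ (fstV (z + act (D.ρ f) w + vec (p, s) (D.γ f g))) + β (f * g) =
          fstV (pairV (φ (fstV z) + β f) (act M (sndV z) + τ f) +
            act (D'.ρ (α f)) (pairV (φ (fstV w) + β g) (act M (sndV w) + τ g)) +
            vec (p, s) (D'.γ (α f) (α g)))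
        rw [fstV_mul, fstV_mul, fstV_pairV, fstV_pairV, h2]
      · change act M (sndV (z + act (D.ρ f) w + vec (p, s) (D.γ f g))) + τ (f * g) =
          sndV (pairV (φ (fstV z) + β f) (act M (sndV z) + τ f) +
            act (D'.ρ (α f)) (pairV (φ (fstV w) + β g) (act M (sndV w) + τ g)) +
            vec (p, s) (D'.γ (α f) (α g)))
        rw [sndV_mul, sndV_mul, sndV_pairV, sndV_pairV, act_add, act_add, act_add,
          ← act_mul, hMρ, act_mul]
        have h3 := hτ f g
        rw [sub_eq_iff_eq_add] at h3
        rw [h3]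
        abel)
  have hcont : Continuous Ψ := by
    have hf : Continuous (fstV : (Fin n → P × S) → Fin n → P) := by
      unfold fstV
      fun_prop
    have hs : Continuous (sndV : (Fin n → P × S) → Fin n → S) := by
      unfold sndV
      fun_prop
    have hM' := act_continuous (C := S) M
    have hβ : Continuous β := continuous_of_discreteTopology
    have hτ' : Continuous τ := continuous_of_discreteTopology
    have hα : Continuous α := continuous_of_discreteTopology
    have hp : Continuous fun q : (Fin n → P) × (Fin n → S) => pairV q.1 q.2 := by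
      unfold pairV
      fun_prop
    have : Continuous fun z : (Fin n → P × S) × F =>
        ((pairV (φ (fstV z.1) + β z.2) (act M (sndV z.1) + τ z.2), α z.2) :
          (Fin n → P × S) × F') := by
      refine Continuous.prodMk ?_ (hα.comp continuous_snd)
      refine hp.comp (Continuous.prodMk ?_ ?_)
      · exact (φ.continuous.comp (hf.comp continuous_fst)).add (hβ.comp continuous_snd)
      · exact (hM'.comp (hs.comp continuous_fst)).add (hτ'.comp continuous_snd)
    exact this
  have hbij : Function.Bijective Ψ := by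
    have hMb := act_bij hS M hM
    constructor
    · rintro ⟨z, f⟩ ⟨w, g⟩ h
      have hfg : f = g := α.injective (congrArg Prod.snd h)
      subst hfg
      have h1 : pairV (φ (fstV z) + β f) (act M (sndV z) + τ f) =
        pairV (φ (fstV w) + β f) (act M (sndV w) + τ f) := congrArg Prod.fst h
      have h2 := congrArg fstV h1
      have h3 := congrArg sndV h1
      rw [fstV_pairV, fstV_pairV] at h2
      rw [sndV_pairV, sndV_pairV] at h3
      exact Prod.ext (ext_pairV (φ.injective (add_right_cancel h2))
        (hMb.1 (add_right_cancel h3))) rfl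
    · rintro ⟨w, g⟩
      obtain ⟨y, hy⟩ := hMb.2 (sndV w - τ (α.symm g))
      refine ⟨mk D _ _ (pairV (φ.symm (fstV w - β (α.symm g))) y) (α.symm g), ?_⟩
      refine Prod.ext ?_ (α.apply_symm_apply g)
      apply ext_pairV
      · change φ (φ.symm (fstV w - β (α.symm g))) + β (α.symm g) = fstV w
        rw [φ.apply_symm_apply, sub_add_cancel]
      · change act M y + τ (α.symm g) = sndV w
        rw [hy, sub_add_cancel]
  have : CompactSpace F := Finite.compactSpace
  let e : E D (P × S) (p, s) ≃ E D' (P × S) (p, s) := Equiv.ofBijective Ψ hbij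
  let e' := Continuous.homeoOfEquivCompactToT2 (f := e) hcont
  exact ⟨{ MulEquiv.ofBijective Ψ hbij with
    continuous_toFun := hcont
    continuous_invFun := e'.symm.continuous }⟩

end Pool.Agent.Run7.h56.BR
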